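import Pool.Agent.Lib.TGBC_h29.Rows
import Pool.Agent.Lib.TGBC_h30.Data
import Pool.Agent.Lib.TGJ.GPOut
import Pool.Agent.Lib.TG_h35.FOD2
import Pool.Agent.Lib.TG_h81.ProjP

/-!
# TANK G, the assembly of the blocks B + C into PROJ: the statements between the rows

`n = m + 1` is the transcendence degree, `N = m + 2` the number of coefficients of a block, the
forms are elements of `H ^ (m + 2)`.
-/

set_option autoImplicit false

namespace Pool.Agent.TGTop

open Pool.Agent.TG (Ov ZDim IsMin IsModel Fin' NV ncl)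
open Pool.Agent.TG15 (Tp hx tup)
open Pool.Agent.TGJ
open Pool.Agent.TGBC (C₁ IsResOf PtOut)
open Pool.Agent.TGBC30 (BData B0)
open Pool.Agent.TGBC74 (T₀)
open Pool.Agent.TGFOD (FD acl Big)
open Pool.Agent.LU2 (locV)

universe u

/-! ### Constants -/

/-- The bound of `I(w; R)`. -/
def C₂ (n : ℕ) : ℕ := T₀ n * (1 + C₁ n) * C₁ n

/-- The bound of the local degrees of the boundary divisors. -/
def C₃ (n : ℕ) : ℕ := T₀ n * C₁ n

/-- The bound of the local degrees over `P^(m+1)`. -/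
def degB (m : ℕ) : ℕ := (m + 3) ^ (m + 1) * C₁ (m + 1)

/-- The bound of the local degrees over `P^m`. -/
def ramB (m : ℕ) : ℕ :=
  (m + 3) ^ m * (C₂ (m + 1) + C₃ (m + 1)) + (m + 1) * (m + 2) * (m + 3) ^ m * C₁ (m + 1)

/-- The bound of PROJ. -/
def dB (m : ℕ) : ℕ := max (degB m) (ramB m)

variable {k K : Type u} [Field k] [Field K] [Algebra k K]

/-! ### J9 -/

/-- **Output of J9 (helper29, helper35)**: at every closed point of the normalisation of the model
`H` the generic tuples are good coordinates (hypotheses of `ThmC`); the boundary divisors are those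
which satisfy `Tb`. -/
def PtFree (H : Submodule k K) (Tb : ValuationSubring K → Prop) (m : ℕ) : Prop :=
  ∀ V : ValuationSubring K, ZDim k V → ∀ f₀ : K, IsMin V H f₀ →
    ∀ (h : ℕ) (e : Fin h → K), Submodule.span k (Set.range e) = hx V H →
    ∀ κ' : Subfield k, Big κ' → ∃ c : Fin (m + 2) × Fin h → k, AlgebraicIndependent κ' c ∧
      ∀ V' : ValuationSubring K, ZDim k V' → hx V' H = hx V H →
        ∀ res : NV V' H →ₐ[k] k, IsResOf V' res → ∀ u : Fin (m + 1) → NV V' H,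
          (∀ l, (u l : K) = tup f₀ e c l.succ / tup f₀ e c 0) →
          PtOut res u {E | IsDiv (NV V' H) E ∧ Tb E} (C₁ (m + 1)) (C₂ (m + 1)) (C₃ (m + 1))

/-- **J9 (helper29).** -/
def RowJ9 (k K : Type u) [Field k] [Field K] [Algebra k K] : Prop :=
  IsAlgClosed k → (⊤ : IntermediateField k K).FG → ∀ p : ℕ, p.Prime → CharP k p →
  ∀ m : ℕ, Algebra.trdeg k K = (m + 1 : ℕ) → C₁ (m + 1) < p →
  ∀ (A₀ : Subalgebra k K) (Z : Finset K) (d : BData (m + 1) A₀ Z),
    ∃ (mW : ℕ) (W : Submodule k K), W ≤ d.L ^ mW ∧ W ≠ ⊥ ∧ Fin' (W * d.L) ∧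
      PtFree (W * d.L) (Tp d.L (d.e + 1 + mW) d.τ W) m

/-- **BC11 inside `A₀` (helper30)**: `L ⊆ A₀ ≤ B₀`. -/
def RowData (k K : Type u) [Field k] [Field K] [Algebra k K] : Prop :=
  IsAlgClosed k → (⊤ : IntermediateField k K).FG → ∀ n : ℕ, Algebra.trdeg k K = n →
  ∀ A₀ : Subalgebra k K, A₀.FG → (∀ x : K, IsIntegral A₀ x → x ∈ A₀) →
    (∀ x : K, ∃ a ∈ A₀, ∃ s ∈ A₀, s ≠ 0 ∧ x = a / s) →
    ∃ d : BData n A₀ ∅, ∀ l ∈ d.L, l ∈ A₀

/-! ### General position -/

/-- The data of general position: `H` has a basis in `E`, the boundary `Tb` is stable under the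
automorphisms of `k / κ`, `h i` are generic elements of `H ^ (m + 2)`. -/
structure GData {κ : Subfield k} {E : IntermediateField κ K} {m : ℕ} {x : Fin (m + 1) → K}
    (hFD : FD κ E x) (H : Submodule k K) (Tb : ValuationSubring K → Prop) {J : Type} [Fintype J]
    (β : J → K) (s : Fin (m + 2) × J → k) (h : Fin (m + 2) → K) : Prop where
  big : Big κ
  model : IsModel H
  fin' : Fin' H
  base : ∃ F : Set K, F.Finite ∧ F ⊆ E ∧ H = Submodule.span k F
  tb : ∀ (σ : k ≃ₐ[κ] k) (V : ValuationSubring K), Tb V ↔ Tb (V.comap (hFD.act σ : K →+* K))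
  mem : ∀ j, β j ∈ E
  lin : LinearIndependent k β
  span : Submodule.span k (Set.range β) = H ^ (m + 2)
  ind : AlgebraicIndependent κ s
  eq : ∀ i, h i = ∑ j, s (i, j) • β j

/-- **ROW GP = R12 + ThmC (helper35, helper86, helper76)**: the fields `deg` and `ram` of
`GPOut`. -/
def RowGP (k K : Type u) [Field k] [Field K] [Algebra k K] : Prop :=
  IsAlgClosed k → (⊤ : IntermediateField k K).FG → ∀ p : ℕ, p.Prime → CharP k p →
  ∀ m : ℕ, Algebra.trdeg k K = (m + 1 : ℕ) → degB m < p →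
  ∀ (κ : Subfield k) (E : IntermediateField κ K) (x : Fin (m + 1) → K) (hFD : FD κ E x)
    (H : Submodule k K) (Tb : ValuationSubring K → Prop) (J : Type) (_ : Fintype J) (β : J → K)
    (s : Fin (m + 2) × J → k) (h : Fin (m + 2) → K), GData hFD H Tb β s h → PtFree H Tb m →
  (∀ V : ValuationSubring K, ZDim k V → ∃ j, IsMin V (H ^ (m + 2)) (h j)) →
  ∀ V : ValuationSubring K, ZDim k V → ∀ j, (∀ i, h i / h j ∈ V) →
    ∀ res : NV V H →ₐ[k] k, ResAt V res → ∀ y : Fin (m + 1) → NV V H, Coord h j res y →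
      Proper (NV V H).val res y ∧ Rho (NV V H).val res y ≤ degB m ∧
      ∀ v, IsDiv (NV V H) v → (ramV v y ≠ 0 ∨ Tb v) →
        ProperV (NV V H) v res (y ∘ Fin.castSucc) ∧
          RhoV (NV V H) v res (y ∘ Fin.castSucc) ≤ ramB m

/-- **ROW O (helper70)**: no common zeros; the ramification and boundary divisors do not pass
through the points over `O = [0 : .. : 0 : 1]`. -/
def RowO (k K : Type u) [Field k] [Field K] [Algebra k K] : Prop :=
  IsAlgClosed k → (⊤ : IntermediateField k K).FG → ∀ m : ℕ, Algebra.trdeg k K = (m + 1 : ℕ) →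
  ∀ (κ : Subfield k) (E : IntermediateField κ K) (x : Fin (m + 1) → K) (hFD : FD κ E x)
    (H : Submodule k K) (Tb : ValuationSubring K → Prop) (J : Type) (_ : Fintype J) (β : J → K)
    (s : Fin (m + 2) × J → k) (h : Fin (m + 2) → K), GData hFD H Tb β s h → TG.Bir H →
  (∀ v, Tb v → ∃ e ∈ E, e ∉ v) →
  (∀ V : ValuationSubring K, ZDim k V → ∃ j, IsMin V (H ^ (m + 2)) (h j)) ∧
  ∀ V : ValuationSubring K, ZDim k V → (∀ i, h i / h (Fin.last (m + 1)) ∈ V) →
    (∀ i, i ≠ Fin.last (m + 1) → V.valuation (h i / h (Fin.last (m + 1))) < 1) →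
    ∀ res : NV V H →ₐ[k] k, ResAt V res → ∀ y : Fin (m + 1) → NV V H,
      Coord h (Fin.last (m + 1)) res y → ∀ v, IsDiv (NV V H) v → ramV v y = 0 ∧ ¬ Tb v

/-- **ROW R13 (helper55)**. -/
def RowR13 (k K : Type u) [Field k] [Field K] [Algebra k K] : Prop :=
  IsAlgClosed k → (⊤ : IntermediateField k K).FG → ∀ p : ℕ, p.Prime → CharP k p →
  ∀ m : ℕ, Algebra.trdeg k K = (m + 1 : ℕ) → ∀ d : ℕ, d < p →
  ∀ (W : Submodule k K) (h : Fin (m + 2) → K) (Θ : Set (ValuationSubring K)), GPOut W h Θ d →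
  ∀ A₀ : Subalgebra k K, A₀.FG → (∀ x : K, IsIntegral A₀ x → x ∈ A₀) →
    (∀ x : K, ∃ a ∈ A₀, ∃ s ∈ A₀, s ≠ 0 ∧ x = a / s) →
    (∀ V : ValuationSubring K, ZDim k V → ∀ v, IsDiv (NV V W) v → v ∉ Θ →
      (∀ a ∈ A₀, a ∈ v) ∧ ∀ x ∈ v, x ∈ locV v A₀) →
    ∃ (b : Fin m → K) (z : K) (C : Finset K) (Bad : Set (ValuationSubring K)),
      TG.ProjP A₀ d b z C Bad

end Pool.Agent.TGTop
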