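import Pool.Agent.Lib.TGJ_h25.TopA
import Pool.Agent.Lib.TGBC_h29.GoodE

/-!
# TANK G, the assembly of the blocks B + C into PROJ

`projStmt_of` : the rows of `TopDefs` give `ProjStmt k m (dB m)`, for `k` algebraically closed of
characteristic `p > dB m` and of infinite transcendence degree over a subfield.
-/

set_option autoImplicit false

namespace Pool.Agent.TGTop

open Pool.Agent.TG (Ov ZDim IsMin IsModel Fin' NV RV ncl ch chN)
open Pool.Agent.TG15 (Tp hx)
open Pool.Agent.TGJ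
open Pool.Agent.TGBC (C₁ Divs)
open Pool.Agent.TGBC30 (BData B0)
open Pool.Agent.TGFOD (FD acl Big)
open Pool.Agent.LU2 (locV)
open scoped Pointwise

universe u

variable {k K : Type u} [Field k] [Field K] [Algebra k K]

theorem c₁_le (m : ℕ) : C₁ (m + 1) ≤ degB m := by
  unfold degB
  exact Nat.le_mul_of_pos_left _ (by positivity)

theorem degB_le (m : ℕ) : degB m ≤ dB m := le_max_left _ _

theorem ramB_le (m : ℕ) : ramB m ≤ dB m := le_max_right _ _

theorem bir_mul {L W : Submodule k K} (hL : TG.Bir L) (hW : W ≠ ⊥) :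
    TG.Bir (W * L) := by
  obtain ⟨w, hw, hw0⟩ := (Submodule.ne_bot_iff _).1 hW
  unfold TG.Bir at hL ⊢
  rw [eq_top_iff, ← hL, IntermediateField.adjoin_le_iff]
  rintro _ ⟨f, hf, g, hg, rfl⟩
  refine IntermediateField.subset_adjoin _ _ ⟨w * f, Submodule.mul_mem_mul hw hf, w * g,
    Submodule.mul_mem_mul hw hg, ?_⟩
  rw [mul_div_mul_left _ _ hw0]

theorem isModel_mul {L W : Submodule k K} (hL : L.FG) (h1 : (1 : K) ∈ L) (hWfg : W.FG)
    (hW : W ≠ ⊥) : IsModel (W * L) :=
  TG.IsModel.mul ⟨hWfg, hW⟩ ⟨hL, fun h0 => one_ne_zero ((Submodule.mem_bot k).1 (h0 ▸ h1))⟩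

theorem fg_of_le_pow {L W : Submodule k K} (hL : L.FG) {m : ℕ} (hW : W ≤ L ^ m) : W.FG := by
  have h1 : FiniteDimensional k (L ^ m : Submodule k K) := Module.Finite.iff_fg.2 (hL.pow m)
  have h2 : FiniteDimensional k W := Submodule.finiteDimensional_of_le hW
  exact Module.Finite.iff_fg.1 h2

theorem finite_pow {F : Set K} (hF : F.Finite) (N : ℕ) : (F ^ N).Finite := by
  induction N with
  | zero => rw [pow_zero]; exact Set.finite_one
  | succ N ih => rw [pow_succ]; exact ih.mul hF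

/-- The general position data over a field of definition. -/
theorem exists_gdata [IsAlgClosed k] (hK : (⊤ : IntermediateField k K).FG) {m : ℕ}
    (htr : Algebra.trdeg k K = (m + 1 : ℕ)) {κ₀ : Subfield k} (hbig : Big κ₀)
    {x : Fin (m + 1) → K} (hx : AlgebraicIndependent k x) {L W : Submodule k K} {τ : K} {N : ℕ}
    (hL : L.FG) (h1 : (1 : K) ∈ L) (hWfg : W.FG) (hW : W ≠ ⊥) (hτ : τ ≠ 0)
    (hfin : Fin' (W * L)) :
    ∃ (κ : Subfield k) (E : IntermediateField κ K) (hFD : FD κ E x) (r : ℕ) (β : Fin r → K)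
      (s : Fin (m + 2) × Fin r → k) (h : Fin (m + 2) → K),
      GData hFD (W * L) (Tp L N τ W) β s h ∧ (∀ v, Tp L N τ W v → ∃ e ∈ E, e ∉ v) ∧
      ∀ i, h i ≠ 0 := by
  classical
  obtain ⟨FL, hFL⟩ := id hL
  obtain ⟨FW, hFW⟩ := id hWfg
  have hxb : IsTranscendenceBasis k x :=
    hx.isTranscendenceBasis_of_lift_trdeg_le_of_finite (by rw [htr]; simp)
  obtain ⟨T, E, -, hFD, hE⟩ := TGFOD.exists_FD hK hxb κ₀ (FL ∪ FW ∪ {τ}) ∅
  have hLE : (FL : Set K) ⊆ E := fun a ha => hE (by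
    rw [Finset.coe_union, Finset.coe_union]; exact Or.inl (Or.inl ha))
  have hWE : (FW : Set K) ⊆ E := fun a ha => hE (by
    rw [Finset.coe_union, Finset.coe_union]; exact Or.inl (Or.inr ha))
  have hτE : τ ∈ E := hE (by
    rw [Finset.coe_union, Finset.coe_singleton]; exact Or.inr rfl)
  have hκ : Big (acl κ₀ (T : Set k)) := TGFOD.acl_big T.finite_toSet hbig
  have hM := isModel_mul hL h1 hWfg hW
  have hH : W * L = Submodule.span k ((FW : Set K) * (FL : Set K)) := by
    rw [← Submodule.span_mul_span, hFW, hFL]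
  have hHE : (FW : Set K) * (FL : Set K) ⊆ E := mul_subset hWE hLE
  have hHfin : ((FW : Set K) * (FL : Set K)).Finite :=
    Set.Finite.mul FW.finite_toSet FL.finite_toSet
  obtain ⟨r, β, hβE, hli, hspan⟩ := exists_basis (k := k)
    (finite_pow hHfin (m + 2)) (pow_subset hHE (m + 2))
  rw [← Submodule.span_pow, ← hH] at hspan
  obtain ⟨c, hc⟩ := hκ (Fintype.card (Fin (m + 2) × Fin r))
  let e := Fintype.equivFin (Fin (m + 2) × Fin r)
  have hs : AlgebraicIndependent (acl κ₀ (T : Set k)) (c ∘ e) := hc.comp e e.injective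
  refine ⟨acl κ₀ (T : Set k), E, hFD, r, β, c ∘ e, fun i => ∑ j, (c ∘ e) (i, j) • β j,
    ⟨hκ, hM, hfin, ⟨_, hHfin, hHE, hH⟩, ?_, hβE, hli, hspan, hs, fun i => rfl⟩, ?_, ?_⟩
  · exact fun σ V => tp_act hFD hLE hFL.symm hWE hFW.symm hτE σ V
  · exact fun v hv => tp_nontriv hLE hFL.symm hWE hFW.symm hτE hτ hW hv
  · intro i h0
    have h2 := Fintype.linearIndependent_iff.1 hli _ h0
    have hr : Nonempty (Fin r) := by
      by_contra hcon
      rw [not_nonempty_iff] at hcon
      have h3 : Set.range β = ∅ := Set.range_eq_empty β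
      rw [h3, Submodule.span_empty] at hspan
      exact (TG.IsModel.pow hM (m + 2)).ne hspan.symm
    exact hs.ne_zero (i, hr.some) (h2 hr.some)

/-- **PROJ from the rows.** -/
theorem projStmt_of (k : Type u) [Field k] [IsAlgClosed k] {p : ℕ} (hp : p.Prime) [CharP k p]
    {κ₀ : Subfield k} (hbig : Big κ₀) (m : ℕ) (hd : dB m < p)
    (hData : ∀ (K : Type u) [Field K] [Algebra k K], RowData k K)
    (hJ9 : ∀ (K : Type u) [Field K] [Algebra k K], RowJ9 k K)
    (hO : ∀ (K : Type u) [Field K] [Algebra k K], RowO k K)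
    (hGP : ∀ (K : Type u) [Field K] [Algebra k K], RowGP k K)
    (hR13 : ∀ (K : Type u) [Field K] [Algebra k K], RowR13 k K) :
    TG.ProjStmt k m (dB m) := by
  intro K _ _ hK htr A₀ hA₀ hic hfr
  have hk : IsAlgClosed k := inferInstance
  have hcp : CharP k p := inferInstance
  have hdeg : degB m < p := lt_of_le_of_lt (degB_le m) hd
  obtain ⟨d, hdL⟩ := hData K hk hK (m + 1) htr A₀ hA₀ hic hfr
  obtain ⟨mW, W, hWL, hW0, hfin, hPt⟩ := hJ9 K hk hK p hp hcp m htr
    (lt_of_le_of_lt (c₁_le m) hdeg) A₀ ∅ d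
  have hWfg := fg_of_le_pow d.L_fg hWL
  have hM := isModel_mul d.L_fg d.one_mem hWfg hW0
  obtain ⟨κ, E, hFD, r, β, s, h, hG, hnt, hne⟩ := exists_gdata (N := d.e + 1 + mW) hK htr hbig
    d.ind d.L_fg d.one_mem hWfg hW0 d.τ_ne hfin
  obtain ⟨hbpf, hout⟩ := hO K hk hK m htr κ E d.x hFD (W * d.L) _ (Fin r) inferInstance β s h hG
    (bir_mul d.bir hW0) hnt
  have hGPK := hGP K hk hK p hp hcp m htr hdeg κ E d.x hFD (W * d.L) _ (Fin r) inferInstance β s h
    hG hPt hbpf
  have hmem : ∀ i, h i ∈ (W * d.L) ^ (m + 2) := by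
    intro i
    rw [hG.eq i, ← hG.span]
    exact Submodule.sum_mem _ fun j _ => Submodule.smul_mem _ _ (Submodule.subset_span ⟨j, rfl⟩)
  have hGPO : GPOut (W * d.L) h
      {v | v ∈ Divs k (W * d.L) ∧ Tp d.L (d.e + 1 + mW) d.τ W v} (dB m) :=
    { model := hM
      fin' := hfin
      ne := hne
      fin := TGBC.theta_finite hK d.L_fg d.one_mem d.τ_ne d.τ_mem hWL hWfg hW0 hfin
      bpf := ⟨m + 2, by omega, hmem, hbpf⟩
      deg := fun V hV j hj res hres y hy =>
        ⟨(hGPK V hV j hj res hres y hy).1,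
          (hGPK V hV j hj res hres y hy).2.1.trans (degB_le m)⟩
      ram := fun V hV j _ hj res hres y hy v hv hor => by
        have h1 := (hGPK V hV j hj res hres y hy).2.2 v hv (hor.imp id fun h2 => h2.2)
        exact ⟨h1.1, h1.2.trans (ramB_le m)⟩
      out := fun V hV hj hlt res hres y hy v hv => by
        have h1 := hout V hV hj hlt res hres y hy v hv
        exact ⟨h1.1, fun h2 => h1.2 h2.2⟩ }
  have hno : IsNoetherianRing A₀ := by
    have h1 : Algebra.FiniteType k A₀ := (Subalgebra.fg_iff_finiteType _).1 hA₀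
    exact Algebra.FiniteType.isNoetherianRing k A₀
  obtain ⟨b, z, C, Bad, hPP⟩ := hR13 K hk hK p hp hcp m htr (dB m) hd (W * d.L) h _ hGPO A₀ hA₀ hic
    hfr (by
      intro V hV v hv hvΘ
      have hvD : v ∈ Divs k (W * d.L) := ⟨V, hV, hv⟩
      have hT : ¬ Tp d.L (d.e + 1 + mW) d.τ W v := fun hT => hvΘ ⟨hvD, hT⟩
      obtain ⟨-, h2, h3, h4⟩ := TGBC.good_div hK htr d.L_fg d.one_mem d.τ_mem hWL hWfg hfin hvD hT
      have hov : Ov k v := fun c => hv.le _ ((NV V (W * d.L)).algebraMap_mem c)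
      have hτ : d.τ⁻¹ ∈ v := by
        rw [← v.valuation_le_one_iff, map_inv₀, h3, inv_one]
      have hB0 : ∀ a ∈ B0 d.L d.τ, a ∈ v := by
        intro a ha
        induction ha using Algebra.adjoin_induction with
        | mem a ha =>
          rcases ha with ha | ha
          · exact h2 a ha
          · rw [Set.mem_singleton_iff.1 ha]; exact hτ
        | algebraMap c => exact hov c
        | add a b _ _ ha hb => exact v.add_mem _ _ ha hb
        | mul a b _ _ ha hb => exact v.mul_mem _ _ ha hb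
      have hA₀v : ∀ a ∈ A₀, a ∈ v := fun a ha => hB0 a (d.A₀_le ha)
      have hdiv := h4 A₀ hno hic hfr hdL hA₀v
      exact ⟨hA₀v, fun x hx => (TGBC.mem_iff_locV hdiv x).1 hx⟩)
  obtain ⟨f, hf⟩ := hPP.proj
  exact ⟨b, z, f, C, hf⟩

end Pool.Agent.TGTop
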