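import Pool.Agent.Lib.TGJ_h25.TopDefs

/-!
# TANK G, the assembly of the blocks B + C: the boundary and the field of definition

* `tp_act` : the boundary is stable under the automorphisms of `k / κ`
* `tp_nontriv` : a boundary valuation is not trivial on `E`
* `exists_basis` : `H ^ N` has a basis in `E`
-/

set_option autoImplicit false

namespace Pool.Agent.TGTop

open Pool.Agent.TG (Ov ZDim IsMin IsModel Fin' NV RV ncl ch chN)
open Pool.Agent.TG15 (Tp hx Gt)
open Pool.Agent.TGJ
open Pool.Agent.TGFOD (FD acl Big)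
open scoped Pointwise

universe u

variable {k K : Type u} [Field k] [Field K] [Algebra k K]

section Comap

variable {V : ValuationSubring K}

theorem comap_lt_iff (f : K →+* K) {a b : K} : (V.comap f).valuation a < (V.comap f).valuation b ↔
    V.valuation (f a) < V.valuation (f b) := by
  rcases eq_or_ne b 0 with rfl | hb
  · simp
  have hb' : f b ≠ 0 := (map_ne_zero f).2 hb
  have h1 : (V.comap f).valuation b ≠ 0 := (Valuation.ne_zero_iff _).2 hb
  have h2 : V.valuation (f b) ≠ 0 := (Valuation.ne_zero_iff _).2 hb'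
  have h3 : (b / a ∈ V.comap f) ↔ f b / f a ∈ V := by
    rw [ValuationSubring.mem_comap, map_div₀]
  rcases eq_or_ne a 0 with rfl | ha
  · rw [map_zero, map_zero, map_zero]
    simp only [zero_lt_iff]
    exact ⟨fun _ => h2, fun _ => h1⟩
  have ha' : f a ≠ 0 := (map_ne_zero f).2 ha
  have h4 : ∀ (A : ValuationSubring K) {a b : K}, a ≠ 0 → b ≠ 0 →
      (A.valuation a < A.valuation b ↔ b / a ∉ A) := by
    intro A a b ha hb
    rw [← ValuationSubring.valuation_le_one_iff, map_div₀, not_le,
      one_lt_div₀ (by rwa [Valuation.pos_iff])]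
  rw [h4 _ ha hb, h4 _ ha' hb', h3]

end Comap

section Act

variable {κ : Subfield k} {E : IntermediateField κ K} {n : ℕ} {x : Fin n → K} (hFD : FD κ E x)

theorem act_span {F : Set K} (hF : F ⊆ E) (σ : k ≃ₐ[κ] k) {y : K}
    (hy : y ∈ Submodule.span k F) : hFD.act σ y ∈ Submodule.span k F := by
  induction hy using Submodule.span_induction with
  | mem y hy =>
    rw [hFD.act_mem σ (hF hy)]
    exact Submodule.subset_span hy
  | zero => rw [map_zero]; exact zero_mem _
  | add y z _ _ hy hz => rw [map_add]; exact add_mem hy hz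
  | smul c y _ hy =>
    rw [Algebra.smul_def, map_mul, hFD.act_algebraMap, ← Algebra.smul_def]
    exact Submodule.smul_mem _ _ hy

theorem act_act_inv (σ : k ≃ₐ[κ] k) (y : K) : hFD.act σ (hFD.act σ⁻¹ y) = y := by
  rw [← hFD.act_mul, mul_inv_cancel, hFD.act_one]

theorem act_inv_act (σ : k ≃ₐ[κ] k) (y : K) : hFD.act σ⁻¹ (hFD.act σ y) = y := by
  rw [← hFD.act_mul, inv_mul_cancel, hFD.act_one]

theorem pow_subset {F : Set K} (hF : F ⊆ E) (N : ℕ) : F ^ N ⊆ (E : Set K) := by
  induction N with
  | zero =>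
    rw [pow_zero]
    rintro _ rfl
    exact one_mem E
  | succ N ih =>
    rw [pow_succ, Set.mul_subset_iff]
    intro a ha b hb
    exact mul_mem (ih ha) (hF hb)

theorem mul_subset {F G : Set K} (hF : F ⊆ E) (hG : G ⊆ E) : F * G ⊆ (E : Set K) := by
  rw [Set.mul_subset_iff]
  exact fun a ha b hb => mul_mem (hF ha) (hG hb)

variable {F G : Set K} {L W : Submodule k K} {τ : K} {N : ℕ}

theorem tp_act_of (hF : F ⊆ E) (hL : L = Submodule.span k F) (hG : G ⊆ E)
    (hW : W = Submodule.span k G) (hτ : τ ∈ E) (σ : k ≃ₐ[κ] k) {V : ValuationSubring K}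
    (h : Tp L N τ W V) : Tp L N τ W (V.comap (hFD.act σ : K →+* K)) := by
  refine ⟨fun c => ?_, fun w hw => ?_⟩
  · change hFD.act σ (algebraMap k K c) ∈ V
    rw [hFD.act_algebraMap]
    exact h.1 _
  have hw' : hFD.act σ w ∈ W := by
    rw [hW] at hw ⊢
    exact act_span hFD hG σ hw
  rcases h.2 _ hw' with h0 | ⟨y, hy, hlt⟩
  · left
    have h1 : hFD.act σ (τ * w) = 0 := by rw [map_mul, hFD.act_mem σ hτ, h0]
    exact (map_eq_zero_iff _ (hFD.act σ).injective).1 h1
  · right
    refine ⟨hFD.act σ⁻¹ y, ?_, ?_⟩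
    · rw [hL, Submodule.span_pow] at hy ⊢
      exact act_span hFD (pow_subset hF N) σ⁻¹ hy
    · rw [comap_lt_iff]
      change V.valuation (hFD.act σ (τ * w)) < V.valuation (hFD.act σ (hFD.act σ⁻¹ y))
      rw [act_act_inv, map_mul, hFD.act_mem σ hτ]
      exact hlt

/-- The boundary is stable. -/
theorem tp_act (hF : F ⊆ E) (hL : L = Submodule.span k F) (hG : G ⊆ E)
    (hW : W = Submodule.span k G) (hτ : τ ∈ E) (σ : k ≃ₐ[κ] k) (V : ValuationSubring K) :
    Tp L N τ W V ↔ Tp L N τ W (V.comap (hFD.act σ : K →+* K)) := by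
  refine ⟨tp_act_of hFD hF hL hG hW hτ σ, fun h => ?_⟩
  have h1 := tp_act_of hFD hF hL hG hW hτ σ⁻¹ h
  have h2 : (V.comap (hFD.act σ : K →+* K)).comap (hFD.act σ⁻¹ : K →+* K) = V := by
    ext y
    change hFD.act σ (hFD.act σ⁻¹ y) ∈ V ↔ y ∈ V
    rw [act_act_inv]
  rwa [h2] at h1

omit x in
/-- A boundary valuation is not trivial on `E`. -/
theorem tp_nontriv (hF : F ⊆ E) (hL : L = Submodule.span k F) (hG : G ⊆ E)
    (hW : W = Submodule.span k G) (hτ : τ ∈ E) (hτ0 : τ ≠ 0) (hW0 : W ≠ ⊥)
    {v : ValuationSubring K} (h : Tp L N τ W v) : ∃ e ∈ E, e ∉ v := by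
  obtain ⟨w, hwG, hw0⟩ : ∃ w ∈ G, w ≠ 0 := by
    by_contra hcon
    push Not at hcon
    refine hW0 ?_
    rw [hW]
    exact Submodule.span_eq_bot.2 hcon
  have hwW : w ∈ W := by rw [hW]; exact Submodule.subset_span hwG
  have hne : τ * w ≠ 0 := mul_ne_zero hτ0 hw0
  have hne' : v.valuation (τ * w) ≠ 0 := (Valuation.ne_zero_iff _).2 hne
  rcases h.2 w hwW with h0 | ⟨y, hy, hlt⟩
  · exact absurd h0 hne
  rw [hL, Submodule.span_pow] at hy
  obtain ⟨f, hf, hflt⟩ : ∃ f ∈ F ^ N, v.valuation (τ * w) < v.valuation f := by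
    by_contra hcon
    push Not at hcon
    refine absurd hlt (not_lt.2 ?_)
    induction hy using Submodule.span_induction with
    | mem y hy => exact hcon y hy
    | zero => rw [map_zero]; exact zero_le'
    | add y z _ _ hy hz =>
      by_cases h1 : v.valuation (τ * w) < v.valuation y
      · exact absurd h1 (not_lt.2 (hy h1))
      · by_cases h2 : v.valuation (τ * w) < v.valuation z
        · exact absurd h2 (not_lt.2 (hz h2))
        · exact (v.valuation.map_add y z).trans (max_le (not_lt.1 h1) (not_lt.1 h2))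
    | smul c y _ hy =>
      by_cases h1 : v.valuation (τ * w) < v.valuation y
      · exact absurd h1 (not_lt.2 (hy h1))
      · rw [Algebra.smul_def, map_mul]
        exact mul_le_of_le_one_of_le ((v.valuation_le_one_iff _).2 (h.1 c)) (not_lt.1 h1)
  refine ⟨f / (τ * w), div_mem (pow_subset hF N hf) (mul_mem hτ (hG hwG)), ?_⟩
  rw [← v.valuation_le_one_iff, map_div₀, not_le, one_lt_div₀ (zero_lt_iff.2 hne')]
  exact hflt

end Act

section Basis

variable {κ : Subfield k} {E : IntermediateField κ K}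

/-- A finite dimensional space spanned by elements of `E` has a basis in `E`. -/
theorem exists_basis {F : Set K} (hfin : F.Finite) (hF : F ⊆ E) :
    ∃ (r : ℕ) (β : Fin r → K), (∀ j, β j ∈ E) ∧ LinearIndependent k β ∧
      Submodule.span k (Set.range β) = Submodule.span k F := by
  classical
  obtain ⟨b, hb, hspan, hli⟩ := exists_linearIndependent k F
  have hbfin : b.Finite := hfin.subset hb
  have := hbfin.fintype
  let e : Fin (Fintype.card b) ≃ b := (Fintype.equivFin b).symm
  refine ⟨Fintype.card b, fun i => (e i : K), fun j => hF (hb (e j).2), ?_, ?_⟩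
  · exact hli.comp e e.injective
  · rw [← hspan]
    congr 1
    ext y
    constructor
    · rintro ⟨i, rfl⟩
      exact (e i).2
    · intro hy
      exact ⟨e.symm ⟨y, hy⟩, by simp⟩

end Basis

end Pool.Agent.TGTop
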