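import Pool.Agent.Lib.TGJ_h25.TopFin
import Pool.Agent.Lib.TGBC_h30.DataLe
import Pool.Agent.Lib.TGBC_h29.RowJ9
import Pool.Agent.Lib.TGJ_h70.RowO
import Pool.Agent.Lib.TGJ_h76.RowGP
import Pool.Agent.Lib.TGJ.R13
import Pool.Agent.Lib.TGJ.AllC
import Pool.Agent.Lib.TGJ.InR1
import Pool.Agent.Lib.TGJ_h88.F2

/-!
# TANK G: all rows, and the final theorems without hypotheses

* `allRows` : the rows of the blocks B + C
* `projStmt` : PROJ for big fields
* `wl` : local uniformization in the logarithmic form, `p > dB (n - 1)`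
* `resolution` : resolution of singularities of varieties of dimension at most `n` over
  algebraically closed fields of characteristic `p > dB (n - 1)`
-/

set_option autoImplicit false

open AlgebraicGeometry CategoryTheory

namespace Pool.Agent.TGTop

open Pool.Agent.TG Pool.Agent.TGL

universe u

theorem inR1' (k K : Type u) [Field k] [Field K] [Algebra k K] (_ : IsAlgClosed k) :
    TGJ.InR1 k K := TGJ.inR1 k K

theorem allRows (k K : Type u) [Field k] [Field K] [Algebra k K] : AllRows k K where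
  data := TGBC30.rowData k K
  j9 := TGBC.rowJ9_of (TGJ.f2 k K)
  o := TGJ70.rowO
  gp := rowGP_of (TGJ.thmC_of k K (TGJ.f1 k K) (TGJ.f2 k K) (inR1' k K))
  r13 := TGJ.rowR13 (TGJ.exDual_of_R1 (inR1' k K))

/-- **PROJ.** -/
theorem projStmt (k : Type u) [Field k] [IsAlgClosed k] [Uncountable k] {p : ℕ} (hp : p.Prime)
    [CharP k p] (m : ℕ) (hd : dB m < p) : ProjStmt k m (dB m) :=
  projStmt_of k hp (big_bot k) m hd (fun K _ _ => (allRows k K).data)
    (fun K _ _ => (allRows k K).j9) (fun K _ _ => (allRows k K).o) (fun K _ _ => (allRows k K).gp)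
    (fun K _ _ => (allRows k K).r13)

theorem rows2 : TGS27.Rows2 dB := rows2_of_rows fun k K _ _ _ => allRows k K

/-- The logarithmic form, without hypotheses. -/
theorem wl (n p : ℕ) (hp : p.Prime) (hlt : dB (n - 1) < p) (k : Type) [Field k] [IsAlgClosed k]
    [CharP k p] : WL k n :=
  TGS27.wl_of_rows2 rows2 n p hp (dB_lt hlt) k

/-- **Resolution of singularities**, dimension at most `n`, characteristic `p > dB (n - 1)`. -/
theorem resolution (n p : ℕ) (hp : p.Prime) (hlt : dB (n - 1) < p) (k : Type) [Field k]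
    [IsAlgClosed k] [CharP k p] (X : Scheme.{0}) (f : X ⟶ Spec (CommRingCat.of k))
    (hi : IsIntegral X) (hl : LocallyOfFiniteType f) (hq : QuasiCompact f)
    (hn : @Algebra.trdeg k X.functionField _ _ (Pool.Agent.LU2G.consts f).toAlgebra ≤ n) :
    ∃ (Y : Scheme.{0}) (π : Y ⟶ X), IsIntegral Y ∧ IsProper π ∧
      AlgebraicGeometry.Smooth (π ≫ f) ∧ ∃ U : X.Opens, Dense (U : Set X) ∧ IsIso (π ∣_ U) :=
  TGS27.resolution_of_rows2 rows2 n p hp (dB_lt hlt) k X f hi hl hq hn

end Pool.Agent.TGTop
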