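import Pool.Agent.Lib.TGJ_h25.Top
import Pool.Agent.Lib.TGS27.Skel

/-!
# TANK G, the assembly of the blocks B + C: big fields
-/

set_option autoImplicit false

namespace Pool.Agent.TGTop

open Cardinal
open Pool.Agent.TGFOD (big_iff)

universe u

/-- An uncountable field has infinite transcendence degree over its prime field. -/
theorem big_bot (k : Type u) [Field k] [Uncountable k] : TGFOD.Big (⊥ : Subfield k) := by
  rw [big_iff]
  by_contra hcon
  rw [not_le] at hcon
  have hbot : #(⊥ : Subfield k) ≤ ℵ₀ := by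
    have h := Subfield.cardinalMk_closure_le_max (∅ : Set k)
    rw [Subfield.closure_empty] at h
    simpa using h
  obtain ⟨s, hs⟩ := exists_isTranscendenceBasis (⊥ : Subfield k) k
  have hs1 : #s ≤ ℵ₀ := by
    rw [hs.cardinalMk_eq_trdeg]
    exact hcon.le
  have h1 := Algebra.cardinalMk_adjoin_le (⊥ : Subfield k) s
  have h2 : #(Algebra.adjoin (⊥ : Subfield k) s) ≤ ℵ₀ :=
    h1.trans (max_le (max_le hbot hs1) le_rfl)
  have h3 : Algebra.IsAlgebraic (Algebra.adjoin (⊥ : Subfield k) s) k := by
    have := hs.isAlgebraic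
    rwa [Subtype.range_coe] at this
  have h4 := Algebra.IsAlgebraic.cardinalMk_le_max (Algebra.adjoin (⊥ : Subfield k) s) k
  have h5 : #k ≤ ℵ₀ := h4.trans (max_le h2 le_rfl)
  exact absurd h5 (not_le.2 (aleph0_lt_mk_iff.2 inferInstance))

/-- All rows. -/
structure AllRows (k K : Type u) [Field k] [Field K] [Algebra k K] : Prop where
  data : RowData k K
  j9 : RowJ9 k K
  o : RowO k K
  gp : RowGP k K
  r13 : RowR13 k K

/-- The field `proj` of `TGS27.Rows2 dB`. -/
theorem proj_of_rows (h : ∀ (k K : Type) [Field k] [Field K] [Algebra k K], AllRows k K)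
    (m p : ℕ) (hp : p.Prime) (hd : dB m < p) (k : Type) [Field k] (hk : TGS27.Big p k) :
    TG.ProjStmt k m (dB m) := by
  have := hk.closed
  have := hk.char
  have := hk.unc
  exact projStmt_of k hp (big_bot k) m hd (fun K _ _ => (h k K).data) (fun K _ _ => (h k K).j9)
    (fun K _ _ => (h k K).o) (fun K _ _ => (h k K).gp) (fun K _ _ => (h k K).r13)

end Pool.Agent.TGTop
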