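import Pool.Agent.Lib.TGJ_h25.TopDefs

/-!
# TANK G: the constant of PROJ is monotone
-/

set_option autoImplicit false

namespace Pool.Agent.TGTop

open Pool.Agent.TGBC (C₁)
open Pool.Agent.TGBC74 (T₀)

theorem C₁_mono : Monotone C₁ := fun _ _ h =>
  Nat.mul_le_mul (Nat.add_le_add_right h 7) (Nat.factorial_le h)

theorem pow_mono_aux {a b c d : ℕ} (hab : a ≤ b) (hcd : c ≤ d) (hb : 0 < b) : a ^ c ≤ b ^ d :=
  (Nat.pow_le_pow_left hab c).trans (Nat.pow_le_pow_right hb hcd)

theorem T₀_mono : Monotone T₀ := by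
  intro a b h
  unfold T₀
  rcases Nat.eq_zero_or_pos b with rfl | hb
  · rw [Nat.le_zero.1 h]
  · exact Nat.mul_le_mul_left 2 (Nat.mul_le_mul (Nat.add_le_add_right h 7)
      (pow_mono_aux (Nat.mul_le_mul_left 2 h) h (by omega)))

theorem C₂_mono : Monotone C₂ := fun _ _ h =>
  Nat.mul_le_mul (Nat.mul_le_mul (T₀_mono h) (Nat.add_le_add_left (C₁_mono h) 1)) (C₁_mono h)

theorem C₃_mono : Monotone C₃ := fun _ _ h => Nat.mul_le_mul (T₀_mono h) (C₁_mono h)

theorem degB_mono : Monotone degB := fun a b h =>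
  Nat.mul_le_mul (pow_mono_aux (by omega) (by omega) (by omega)) (C₁_mono (by omega))

theorem ramB_mono : Monotone ramB := fun a b h => by
  unfold ramB
  have h1 : (a + 3) ^ a ≤ (b + 3) ^ b := pow_mono_aux (by omega) h (by omega)
  refine Nat.add_le_add (Nat.mul_le_mul h1 (Nat.add_le_add (C₂_mono (by omega))
    (C₃_mono (by omega)))) ?_
  exact Nat.mul_le_mul (Nat.mul_le_mul (Nat.mul_le_mul (by omega) (by omega)) h1)
    (C₁_mono (by omega))

/-- The bound of PROJ is monotone. -/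
theorem dB_mono : Monotone dB := fun _ _ h => max_le_max (degB_mono h) (ramB_mono h)

theorem dB_lt {n p : ℕ} (h : dB (n - 1) < p) : ∀ m < n, dB m < p := fun _ hm =>
  lt_of_le_of_lt (dB_mono (by omega)) h

/-- The larger of the two bounds is the second one. -/
theorem degB_le_ramB (m : ℕ) (hm : 0 < m) : degB m ≤ ramB m := by
  unfold degB ramB
  have h1 : (m + 3) ^ (m + 1) ≤ (m + 1) * (m + 2) * (m + 3) ^ m := by
    rw [pow_succ, mul_comm]
    refine Nat.mul_le_mul_right _ ?_
    nlinarith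
  exact (Nat.mul_le_mul_right _ h1).trans (Nat.le_add_left _ _)

/-- `dB m` in closed form. -/
theorem dB_eq (m : ℕ) : dB m = ramB m := by
  unfold dB
  rcases Nat.eq_zero_or_pos m with rfl | hm
  · decide
  · exact max_eq_right (degB_le_ramB m hm)

end Pool.Agent.TGTop
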