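import Pool.Agent.Lib.TGJ_h25.TopBig
import Pool.Agent.Lib.TGJ_h25.TopConst
import Pool.Agent.Lib.TGS27.Skel2
import Pool.Agent.Lib.TGL_h18.Ind

/-!
# TANK G: the final theorems from the rows of the blocks B + C
-/

set_option autoImplicit false

open AlgebraicGeometry CategoryTheory

namespace Pool.Agent.TGTop

open Pool.Agent.TG Pool.Agent.TGL

/-- Both fields of `TGS27.Rows2 dB`. -/
theorem rows2_of_rows (h : ∀ (k K : Type) [Field k] [Field K] [Algebra k K], AllRows k K) :
    TGS27.Rows2 dB where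
  proj := fun m p hp hd k _ hk => proj_of_rows h m p hp hd k hk
  step := fun p hp k _ hk m d hd hG hP => by
    have := hk.closed
    have := hk.char
    have : Fact p.Prime := ⟨hp⟩
    exact glo_step hd hG hP

/-- The logarithmic form. -/
theorem wl_of_allRows (h : ∀ (k K : Type) [Field k] [Field K] [Algebra k K], AllRows k K)
    (n p : ℕ) (hp : p.Prime) (hlt : dB (n - 1) < p) (k : Type) [Field k] [IsAlgClosed k]
    [CharP k p] : WL k n :=
  TGS27.wl_of_rows2 (rows2_of_rows h) n p hp (dB_lt hlt) k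

/-- **Resolution** from the rows. -/
theorem resolution_of_allRows
    (h : ∀ (k K : Type) [Field k] [Field K] [Algebra k K], AllRows k K) (n p : ℕ)
    (hp : p.Prime) (hlt : dB (n - 1) < p) (k : Type) [Field k] [IsAlgClosed k] [CharP k p]
    (X : Scheme.{0}) (f : X ⟶ Spec (CommRingCat.of k)) (hi : IsIntegral X)
    (hl : LocallyOfFiniteType f) (hq : QuasiCompact f)
    (hn : @Algebra.trdeg k X.functionField _ _ (Pool.Agent.LU2G.consts f).toAlgebra ≤ n) :
    ∃ (Y : Scheme.{0}) (π : Y ⟶ X), IsIntegral Y ∧ IsProper π ∧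
      AlgebraicGeometry.Smooth (π ≫ f) ∧ ∃ U : X.Opens, Dense (U : Set X) ∧ IsIso (π ∣_ U) :=
  TGS27.resolution_of_rows2 (rows2_of_rows h) n p hp (dB_lt hlt) k X f hi hl hq hn

end Pool.Agent.TGTop
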