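import Pool.Agent.Lib.TGJ_h25.TopAll
import Pool.Agent.Lib.TG9.Rows

/-!
# TANK G: the best of the two constants

`dB (n - 1)` from the blocks B + C, `d9 n` from the backup track BC9.
-/

set_option autoImplicit false

open AlgebraicGeometry CategoryTheory

namespace Pool.Agent.TGTop

open Pool.Agent.TG Pool.Agent.TGL
open Pool.Agent.TG9 (d9 C9)

/-- The smaller one of the two bounds for PROJ in dimension `m + 1`. -/
def dmin (m : ℕ) : ℕ := min (dB m) (d9 (m + 1))

theorem rows2_min : TGS27.Rows2 dmin where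
  proj := fun m p hp hd k _ hk => by
    rcases le_total (dB m) (d9 (m + 1)) with h | h
    · have h1 : dmin m = dB m := min_eq_left h
      rw [h1] at hd ⊢
      exact rows2.proj m p hp hd k hk
    · have h1 : dmin m = d9 (m + 1) := min_eq_right h
      rw [h1] at hd ⊢
      exact TG9.rows2_proj m p hp hd k hk
  step := rows2.step

theorem d9_mono : Monotone d9 := fun a b h =>
  Nat.mul_le_mul (Nat.mul_le_mul (Nat.mul_le_mul (by omega)
    (pow_mono_aux (by omega) h (by omega))) (Nat.factorial_le h))
    (pow_mono_aux (Nat.mul_le_mul (by omega) (by omega)) h (by positivity))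

/-- The final bound. -/
def P (n : ℕ) : ℕ := min (dB (n - 1)) (d9 n)

theorem dmin_lt {n p : ℕ} (h : P n < p) : ∀ m < n, dmin m < p := fun m hm => by
  refine lt_of_le_of_lt ?_ h
  exact min_le_min (dB_mono (by omega)) (d9_mono (by omega))

/-- The logarithmic form. -/
theorem wl_min (n p : ℕ) (hp : p.Prime) (hlt : P n < p) (k : Type) [Field k] [IsAlgClosed k]
    [CharP k p] : WL k n :=
  TGS27.wl_of_rows2 rows2_min n p hp (dmin_lt hlt) k

/-- **Resolution of singularities**, dimension at most `n`, characteristic `p > P n`. -/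
theorem resolution_min (n p : ℕ) (hp : p.Prime) (hlt : P n < p) (k : Type) [Field k]
    [IsAlgClosed k] [CharP k p] (X : Scheme.{0}) (f : X ⟶ Spec (CommRingCat.of k))
    (hi : IsIntegral X) (hl : LocallyOfFiniteType f) (hq : QuasiCompact f)
    (hn : @Algebra.trdeg k X.functionField _ _ (Pool.Agent.LU2G.consts f).toAlgebra ≤ n) :
    ∃ (Y : Scheme.{0}) (π : Y ⟶ X), IsIntegral Y ∧ IsProper π ∧
      AlgebraicGeometry.Smooth (π ≫ f) ∧ ∃ U : X.Opens, Dense (U : Set X) ∧ IsIso (π ∣_ U) :=
  TGS27.resolution_of_rows2 rows2_min n p hp (dmin_lt hlt) k X f hi hl hq hn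

end Pool.Agent.TGTop
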